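import Pool.Agent.Helper29.FV.CEnd

/-!
# Programs of formulas of size below `c n ^ 4 / log n` and the sign of the permanent
-/

set_option autoImplicit false

namespace Pool.Agent.Results.MP_381749_lc.FormulaPrograms

/-- Formulas: trees with the binary gates `+`, `*`, `/` and with branching gates. A leaf is a
complex constant, an entry of the matrix, or an arbitrary function of the list of all results of
the earlier formulas. -/
inductive Formula (n : ℕ) : Type
  | const : ℂ → Formula n
  | entry : Fin n → Fin n → Formula n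
  | earlier : (List ℂ → ℂ) → Formula n
  | add : Formula n → Formula n → Formula n
  | mul : Formula n → Formula n → Formula n
  | div : Formula n → Formula n → Formula n
  | branch : Formula n → Formula n → Formula n → Formula n → Formula n

namespace Formula

/-- The value of a formula at the matrix `X` if `l` is the list of the earlier results. A division
by zero gives zero; `branch f g h k` is `g`, `h` or `k` if the real part of `f` is positive, zero
or negative. -/
noncomputable def value {n : ℕ} (X : Matrix (Fin n) (Fin n) ℝ) (l : List ℂ) : Formula n → ℂ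
  | const c => c
  | entry a b => (X a b : ℂ)
  | earlier F => F l
  | add f g => f.value X l + g.value X l
  | mul f g => f.value X l * g.value X l
  | div f g => f.value X l / g.value X l
  | branch f g h k => match SignType.sign (f.value X l).re with
    | SignType.pos => g.value X l
    | SignType.zero => h.value X l
    | SignType.neg => k.value X l

/-- The number of leaves which are entries of the matrix, on the most expensive path through the
branching gates. -/
def size {n : ℕ} : Formula n → ℕ
  | const _ => 0
  | entry _ _ => 1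
  | earlier _ => 0
  | add f g => f.size + g.size
  | mul f g => f.size + g.size
  | div f g => f.size + g.size
  | branch f g h k => f.size + max g.size (max h.size k.size)

/-- The number of leaves which are functions of the earlier results, counted in the same way. -/
def uses {n : ℕ} : Formula n → ℕ
  | const _ => 0
  | entry _ _ => 0
  | earlier _ => 1
  | add f g => f.uses + g.uses
  | mul f g => f.uses + g.uses
  | div f g => f.uses + g.uses
  | branch f g h k => f.uses + max g.uses (max h.uses k.uses)

/-- All leaves which are functions of the earlier results are polynomials in these results: the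
variable `i` is the entry `i` of the list (zero if there is none). -/
def Polynomial {n : ℕ} : Formula n → Prop
  | const _ => True
  | entry _ _ => True
  | earlier F => ∃ P : MvPolynomial ℕ ℂ, ∀ l, F l = MvPolynomial.eval (fun i => l.getD i 0) P
  | add f g => f.Polynomial ∧ g.Polynomial
  | mul f g => f.Polynomial ∧ g.Polynomial
  | div f g => f.Polynomial ∧ g.Polynomial
  | branch f g h k => f.Polynomial ∧ g.Polynomial ∧ h.Polynomial ∧ k.Polynomial

end Formula

/-- The results of a program at the matrix `X`, the last one first. A program is a list of formulas,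
the last one first. -/
noncomputable def results {n : ℕ} (X : Matrix (Fin n) (Fin n) ℝ) : List (Formula n) → List ℂ
  | [] => []
  | f :: p => f.value X (results X p) :: results X p

/-- The answer of a program at the matrix `X`: the sign of the real part of its last result. -/
noncomputable def answer {n : ℕ} (p : List (Formula n)) (X : Matrix (Fin n) (Fin n) ℝ) :
    SignType :=
  SignType.sign ((results X p).getD 0 0).re

/-- Small programs: the sum of the sizes of the formulas is less than `c n ^ 4 / log n`, and the
number of formulas plus the number of leaves which are functions of earlier results is at most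
`1 + c n ^ 2`. -/
def Small {n : ℕ} (c : ℝ) (p : List (Formula n)) : Prop :=
  (((p.map Formula.size).sum : ℕ) : ℝ) < c * (n : ℝ) ^ 4 / Real.log n ∧
    ((p.length + (p.map Formula.uses).sum : ℕ) : ℝ) ≤ 1 + c * (n : ℝ) ^ 2

/-- translation to the library -/
def toLib {n : ℕ} : Formula n → Pool.FV.BF ((Fin n × Fin n) ⊕ (List ℂ → ℂ))
  | Formula.const c => .const c
  | Formula.entry a b => .var (Sum.inl (a, b))
  | Formula.earlier g => .var (Sum.inr g)
  | Formula.add f g => .add (toLib f) (toLib g)
  | Formula.mul f g => .mul (toLib f) (toLib g)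
  | Formula.div f g => .div (toLib f) (toLib g)
  | Formula.branch f g h k => .br (toLib f) (toLib g) (toLib h) (toLib k)

theorem value_branch {n : ℕ} (X : Matrix (Fin n) (Fin n) ℝ) (l : List ℂ) (f g h k : Formula n) :
    (Formula.branch f g h k).value X l = if 0 < (f.value X l).re then g.value X l else
      if (f.value X l).re < 0 then k.value X l else h.value X l := by
  simp only [Formula.value]
  rcases lt_trichotomy (f.value X l).re 0 with h0 | h0 | h0
  · rw [if_neg (not_lt.2 h0.le), if_pos h0, sign_neg h0]
  · rw [h0, if_neg (lt_irrefl _), if_neg (lt_irrefl _), sign_zero]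
  · rw [if_pos h0, sign_pos h0]

theorem value_toLib {n : ℕ} (X : Matrix (Fin n) (Fin n) ℝ) (l : List ℂ) (f : Formula n) :
    Pool.FV.bev (Sum.elim (Pool.FV.cx fun v => X v.1 v.2) fun F : List ℂ → ℂ => F l) (toLib f) =
      f.value X l := by
  induction f with
  | const c => rfl
  | entry a b => rfl
  | earlier g => rfl
  | add f g hf hg => simp only [toLib, Pool.FV.bev, Formula.value, hf, hg]
  | mul f g hf hg => simp only [toLib, Pool.FV.bev, Formula.value, hf, hg]
  | div f g hf hg => simp only [toLib, Pool.FV.bev, Formula.value, hf, hg]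
  | branch f g h k hf hg hh hk =>
    rw [value_branch]
    simp only [toLib, Pool.FV.bev, hf, hg, hh, hk]

theorem results_toLib {n : ℕ} (X : Matrix (Fin n) (Fin n) ℝ) (p : List (Formula n)) :
    Pool.FV.resB id (fun v => X v.1 v.2) (p.map toLib) = results X p := by
  induction p with
  | nil => rfl
  | cons f p ih =>
    rw [List.map_cons]
    simp only [Pool.FV.resB, results]
    rw [ih]
    congr 1
    exact value_toLib X _ f

theorem entries_toLib {n : ℕ} (f : Formula n) : Pool.FV.entriesB (toLib f) = f.size := by
  unfold Pool.FV.entriesB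
  induction f with
  | const c => rfl
  | entry a b => rfl
  | earlier g => rfl
  | add f g hf hg => simp only [toLib, Pool.FV.bw, Formula.size, hf, hg]
  | mul f g hf hg => simp only [toLib, Pool.FV.bw, Formula.size, hf, hg]
  | div f g hf hg => simp only [toLib, Pool.FV.bw, Formula.size, hf, hg]
  | branch f g h k hf hg hh hk => simp only [toLib, Pool.FV.bw, Formula.size, hf, hg, hh, hk]

theorem uses_toLib {n : ℕ} (f : Formula n) : Pool.FV.usesB (toLib f) = f.uses := by
  unfold Pool.FV.usesB
  induction f with
  | const c => rfl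
  | entry a b => rfl
  | earlier g => rfl
  | add f g hf hg => simp only [toLib, Pool.FV.bw, Formula.uses, hf, hg]
  | mul f g hf hg => simp only [toLib, Pool.FV.bw, Formula.uses, hf, hg]
  | div f g hf hg => simp only [toLib, Pool.FV.bw, Formula.uses, hf, hg]
  | branch f g h k hf hg hh hk => simp only [toLib, Pool.FV.bw, Formula.uses, hf, hg, hh, hk]

theorem small_toLib {n : ℕ} {c : ℝ} {p : List (Formula n)} (h : Small c p) :
    (Pool.FV.reuseB (p.map toLib) : ℝ) ≤ 1 + c * (n : ℝ) ^ 2 ∧
      (Pool.FV.sizeB (p.map toLib) : ℝ) < c * (n : ℝ) ^ 4 / Real.log n := by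
  have h1 : Pool.FV.reuseB (p.map toLib) = p.length + (p.map Formula.uses).sum := by
    unfold Pool.FV.reuseB
    rw [List.length_map, List.map_map]
    congr 2
    exact List.map_congr_left fun f _ => uses_toLib f
  have h2 : Pool.FV.sizeB (p.map toLib) = (p.map Formula.size).sum := by
    unfold Pool.FV.sizeB
    rw [List.map_map]
    congr 1
    exact List.map_congr_left fun f _ => entries_toLib f
  rw [h1, h2]
  exact ⟨h.2, h.1⟩

/-- translation of a formula with polynomial leaves -/
theorem exists_poly {n : ℕ} (f : Formula n) (hf : f.Polynomial) :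
    ∃ φ : Pool.FV.BF ((Fin n × Fin n) ⊕ MvPolynomial ℕ ℂ),
      (∀ (X : Matrix (Fin n) (Fin n) ℝ) (l : List ℂ),
        Pool.FV.bev (Sum.elim (Pool.FV.cx fun v => X v.1 v.2) fun g : MvPolynomial ℕ ℂ =>
          Pool.FV.tabP g l) φ = f.value X l) ∧
      Pool.FV.entriesB φ = f.size ∧ Pool.FV.usesB φ = f.uses := by
  induction f with
  | const c => exact ⟨.const c, fun X l => rfl, rfl, rfl⟩
  | entry a b => exact ⟨.var (Sum.inl (a, b)), fun X l => rfl, rfl, rfl⟩
  | earlier F =>
    obtain ⟨P, hP⟩ := hf
    refine ⟨.var (Sum.inr P), fun X l => ?_, rfl, rfl⟩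
    refine Eq.trans ?_ (hP l).symm
    exact DFunLike.congr_fun (MvPolynomial.coe_aeval_eq_eval fun i => l.getD i 0) P
  | add f g ihf ihg =>
    obtain ⟨φ, h1, h2, h3⟩ := ihf hf.1
    obtain ⟨γ, k1, k2, k3⟩ := ihg hf.2
    exact ⟨.add φ γ, fun X l => by simp only [Pool.FV.bev, Formula.value, h1, k1],
      congrArg₂ (· + ·) h2 k2, congrArg₂ (· + ·) h3 k3⟩
  | mul f g ihf ihg =>
    obtain ⟨φ, h1, h2, h3⟩ := ihf hf.1
    obtain ⟨γ, k1, k2, k3⟩ := ihg hf.2
    exact ⟨.mul φ γ, fun X l => by simp only [Pool.FV.bev, Formula.value, h1, k1],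
      congrArg₂ (· + ·) h2 k2, congrArg₂ (· + ·) h3 k3⟩
  | div f g ihf ihg =>
    obtain ⟨φ, h1, h2, h3⟩ := ihf hf.1
    obtain ⟨γ, k1, k2, k3⟩ := ihg hf.2
    exact ⟨.div φ γ, fun X l => by simp only [Pool.FV.bev, Formula.value, h1, k1],
      congrArg₂ (· + ·) h2 k2, congrArg₂ (· + ·) h3 k3⟩
  | branch f g h k ihf ihg ihh ihk =>
    obtain ⟨φ₁, a1, a2, a3⟩ := ihf hf.1
    obtain ⟨φ₂, b1, b2, b3⟩ := ihg hf.2.1
    obtain ⟨φ₃, c1, c2, c3⟩ := ihh hf.2.2.1
    obtain ⟨φ₄, d1, d2, d3⟩ := ihk hf.2.2.2
    refine ⟨.br φ₁ φ₂ φ₃ φ₄, fun X l => ?_, ?_, ?_⟩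
    · rw [value_branch]
      simp only [Pool.FV.bev, a1, b1, c1, d1]
    · unfold Pool.FV.entriesB at *
      simp only [Pool.FV.bw, Formula.size, a2, b2, c2, d2]
    · unfold Pool.FV.usesB at *
      simp only [Pool.FV.bw, Formula.uses, a3, b3, c3, d3]

theorem exists_polyP {n : ℕ} (p : List (Formula n)) (hp : ∀ f ∈ p, f.Polynomial) :
    ∃ q : List (Pool.FV.BF ((Fin n × Fin n) ⊕ MvPolynomial ℕ ℂ)),
      (∀ X : Matrix (Fin n) (Fin n) ℝ, Pool.FV.resB Pool.FV.tabP (fun v => X v.1 v.2) q =
        results X p) ∧ q.map Pool.FV.entriesB = p.map Formula.size ∧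
      q.map Pool.FV.usesB = p.map Formula.uses := by
  induction p with
  | nil => exact ⟨[], fun X => rfl, rfl, rfl⟩
  | cons f p ih =>
    obtain ⟨φ, h1, h2, h3⟩ := exists_poly f (hp f List.mem_cons_self)
    obtain ⟨q, k1, k2, k3⟩ := ih fun g hg => hp g (List.mem_cons_of_mem _ hg)
    refine ⟨φ :: q, fun X => ?_, ?_, ?_⟩
    · simp only [Pool.FV.resB, results]
      rw [k1, h1]
    · rw [List.map_cons, List.map_cons, h2, k2]
    · rw [List.map_cons, List.map_cons, h3, k3]

theorem exists_lib {n : ℕ} {c : ℝ} (p : List (Formula n)) (hp : ∀ f ∈ p, f.Polynomial)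
    (hs : Small c p) :
    ∃ q : List (Pool.FV.BF ((Fin n × Fin n) ⊕ MvPolynomial ℕ ℂ)),
      (∀ X : Matrix (Fin n) (Fin n) ℝ, SignType.sign
        ((Pool.FV.resB Pool.FV.tabP (fun v => X v.1 v.2) q).getD 0 0).re = answer p X) ∧
      (Pool.FV.reuseB q : ℝ) ≤ 1 + c * (n : ℝ) ^ 2 ∧
      (Pool.FV.sizeB q : ℝ) < c * (n : ℝ) ^ 4 / Real.log n := by
  obtain ⟨q, h1, h2, h3⟩ := exists_polyP p hp
  refine ⟨q, fun X => ?_, ?_, ?_⟩
  · unfold answer
    rw [h1]
  · have h4 : q.length = p.length := by
      have := congrArg List.length h2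
      rwa [List.length_map, List.length_map] at this
    unfold Pool.FV.reuseB
    rw [h3, h4]
    exact hs.2
  · unfold Pool.FV.sizeB
    rw [h2]
    exact hs.1

/-- There is `c > 0` such that for small programs `f 1, ..., f k` (with polynomials as functions of
earlier results) and small programs `g 1, ..., g l` (with arbitrary functions of earlier results)
there is an integer zero `X` of the permanent, with large permanents `M` and `-M` after a change of
any one entry by `1` and `-1`, such that the answers of all `f i` are constant on the box of radius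
`R` around `X`, and for each `j`, as near to `X` as we like, there are real matrices with positive
and with negative permanent at which `g j` has exactly the same results as at `X`. -/
theorem result : ∃ c : ℝ, 0 < c ∧ ∀ n k l R : ℕ, 2 ≤ n →
    ∀ (f : Fin k → List (Formula n)) (g : Fin l → List (Formula n)),
    (∀ i, Small c (f i) ∧ ∀ φ ∈ f i, φ.Polynomial) → (∀ j, Small c (g j)) →
    ∃ X : Matrix (Fin n) (Fin n) ℤ, X.permanent = 0 ∧
      (∀ a b, (R : ℤ) ≤ |(X + Matrix.single a b 1).permanent| ∧
        (X - Matrix.single a b 1).permanent = -(X + Matrix.single a b 1).permanent) ∧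
      (∀ i, ∃ s : SignType, ∀ Y : Matrix (Fin n) (Fin n) ℝ,
        (∀ a b, |Y a b - X a b| ≤ R) → answer (f i) Y = s) ∧
      ∀ j, ∀ δ : ℝ, 0 < δ → ∃ Y Z : Matrix (Fin n) (Fin n) ℝ,
        (∀ a b, |Y a b - X a b| < δ ∧ |Z a b - X a b| < δ) ∧
        0 < Y.permanent ∧ Z.permanent < 0 ∧
        results Y (g j) = results (Matrix.of fun a b => (X a b : ℝ)) (g j) ∧
        results Z (g j) = results (Matrix.of fun a b => (X a b : ℝ)) (g j) := by
  obtain ⟨c, hc, h⟩ := Pool.FV.main_br
  refine ⟨c, hc, fun n k l R hn f g hf hg => ?_⟩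
  choose q hq1 hq2 hq3 using fun i => exists_lib (f i) (hf i).2 (hf i).1
  obtain ⟨X, hX, hM, hbox, hδ⟩ := h n k l R hn q (fun j => (g j).map toLib)
    (fun i => ⟨hq2 i, hq3 i⟩) (fun j => small_toLib (hg j))
  have hcast : ∀ p : List (Formula n),
      Pool.FV.resB id (fun v : Fin n × Fin n => (X v.1 v.2 : ℝ)) (p.map toLib) =
        results (Matrix.of fun a b => (X a b : ℝ)) p := fun p =>
    results_toLib (Matrix.of fun a b => (X a b : ℝ)) p
  have hof : ∀ (p : List (Formula n)) (y : Fin n × Fin n → ℝ),
      Pool.FV.resB id y (p.map toLib) = results (Matrix.of fun a b => y (a, b)) p := fun p y =>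
    results_toLib (Matrix.of fun a b => y (a, b)) p
  refine ⟨X, hX, hM, fun i => ?_, fun j δ hδ0 => ?_⟩
  · obtain ⟨s, hs⟩ := hbox i
    exact ⟨s, fun Y hY => (hq1 i Y).symm.trans (hs (fun v => Y v.1 v.2) fun v => hY v.1 v.2)⟩
  · obtain ⟨Y, Z, hY, hZ, e1, e2, e3, e4⟩ := hδ j δ hδ0
    rw [Pool.Agent.Helper71.Fml.eval_permPoly'] at e1 e2
    rw [hof, hcast] at e3 e4
    exact ⟨Matrix.of fun a b => Y (a, b), Matrix.of fun a b => Z (a, b),
      fun a b => ⟨hY (a, b), hZ (a, b)⟩, e1, e2, e3, e4⟩

end Pool.Agent.Results.MP_381749_lc.FormulaPrograms
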