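import Pool.Agent.XI.RAssembly

/-!
# The permanent of integer matrices is hard on average for circuits with divisions and branches
-/

set_option autoImplicit false

namespace Pool.Agent.Results.MP_381749_lc.IntegerCircuits

open Finset

/-- The five kinds of gates of a circuit over the real numbers, `F g x` is the value of the gate
`g` at the input `x ∈ ℝ ^ σ`: a sum gate is a linear combination of the constant `1`, of the inputs
and of the earlier gates of a set `U`; a product gate is a constant times a product of powers of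
inputs and of earlier gates; a polynomial gate is any polynomial in `w` earlier gates; a division
gate is the inverse `1 / h` of an earlier gate, and `0` where `h = 0`; a branch is the gate `h`
where the gate `f` is positive and the gate `k` elsewhere. Four numbers belong to a gate: `depth`
counts the product, polynomial and division gates on the paths to the gate which enter no branch
through its condition `f`; `nest` counts the nested tests (conditions of branches, and the tests
`h = 0` of division gates); `num` and `den` are the formal degrees of numerator and denominator. -/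
def IsGate {σ : Type} [Fintype σ] (w : ℕ) {s : ℕ} (F : Fin s → (σ → ℝ) → ℝ)
    (depth nest num den : Fin s → ℕ) (g : Fin s) : Prop :=
  (∃ (U : Finset (Fin s)) (a₀ : ℝ) (a : σ → ℝ) (c : Fin s → ℝ),
      (∀ h ∈ U, h < g ∧ depth h ≤ depth g ∧ nest h ≤ nest g ∧
        num h + ∑ k ∈ U, den k ≤ num g) ∧
      1 + ∑ k ∈ U, den k ≤ num g ∧ ∑ k ∈ U, den k ≤ den g ∧
      ∀ x, F g x = a₀ + ∑ v, a v * x v + ∑ h ∈ U, c h * F h x) ∨
   (∃ (a₀ : ℝ) (a : σ → ℕ) (e : Fin s → ℕ), 0 < depth g ∧
      (∀ h, e h ≠ 0 → h < g ∧ depth h < depth g ∧ nest h ≤ nest g) ∧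
      ∑ v, a v + ∑ h, e h * num h ≤ num g ∧ ∑ h, e h * den h ≤ den g ∧
      ∀ x, F g x = a₀ * (∏ v, x v ^ a v) * ∏ h, F h x ^ e h) ∨
   (∃ (t : Fin w → Fin s) (Q : MvPolynomial (Fin w) ℝ), 0 < depth g ∧
      (∀ i, t i < g ∧ depth (t i) < depth g ∧ nest (t i) ≤ nest g ∧
        Q.totalDegree * (num (t i) + ∑ j, den (t j)) ≤ num g) ∧
      Q.totalDegree * ∑ j, den (t j) ≤ den g ∧
      ∀ x, F g x = MvPolynomial.eval (fun i => F (t i) x) Q) ∨
   (∃ h : Fin s, h < g ∧ depth h < depth g ∧ nest h < nest g ∧ den h ≤ num g ∧ num h ≤ den g ∧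
      ∀ x, F g x = (F h x)⁻¹) ∨
   (∃ f h k : Fin s, f < g ∧ h < g ∧ k < g ∧ nest f < nest g ∧ nest h ≤ nest g ∧
      nest k ≤ nest g ∧ depth h ≤ depth g ∧ depth k ≤ depth g ∧ num h ≤ num g ∧ num k ≤ num g ∧
      den h ≤ den g ∧ den k ≤ den g ∧
      ∀ x, F g x = if 0 < F f x then F h x else F k x)

/-- `F 0, ..., F (s - 1)` are the functions of `x ∈ ℝ ^ σ` at the gates of a circuit over the real
numbers with divisions and branches: the output `o` has depth at most `d`, tests are nested at most
`b` times, the formal degrees of numerators and denominators are at most `D`. The depth of the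
conditions of the branches is not bounded. -/
def IsCircuit {σ : Type} [Fintype σ] (d w b D : ℕ) {s : ℕ} (F : Fin s → (σ → ℝ) → ℝ)
    (o : Fin s) : Prop :=
  ∃ depth nest num den : Fin s → ℕ, depth o ≤ d ∧ ∀ g, nest g ≤ b ∧ num g ≤ D ∧ den g ≤ D ∧
    IsGate w F depth nest num den g

/-- There is an absolute constant `c > 0` such that the following holds for all `n`, `w ≥ 1`,
`d ≥ 1`, `b`, `a ≥ n` and `M ≥ 2 ^ (5 a (b + n ^ 2 + 1))`. Let `F` be the Fibonacci number of index
`2 d + 2`. If a real circuit with divisions and branches, with `s` gates, with output of depth at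
most `d`, tests nested at most `b` times (conditions of any depth) and formal degrees at most
`2 ^ a` satisfies `s + n ^ w < exp (c n ^ (1 / (F - 1)))`, then its output is the permanent for at
most a fraction `2 ^ (-a)` of the `n × n` matrices with entries in `{0, ..., M - 1}`. -/
theorem result : ∃ c : ℝ, 0 < c ∧ ∀ (n a b d w s M : ℕ) (F : Fin s → (Fin n × Fin n → ℝ) → ℝ)
    (o : Fin s), n ≤ a → 1 ≤ d → 1 ≤ w → 2 ^ (5 * a * (b + n ^ 2 + 1)) ≤ M →
    IsCircuit d w b (2 ^ a) F o →
    s + (n : ℝ) ^ w < Real.exp (c * (n : ℝ) ^ (1 / ((Nat.fib (2 * d + 2) : ℝ) - 1))) →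
    2 ^ a * (univ.filter fun X : Fin n × Fin n → Fin M =>
      F o (fun v => (X v : ℝ)) =
        (Matrix.of fun i j => (X (i, j) : ℝ)).permanent).card ≤ M ^ n ^ 2 := by
  obtain ⟨c, hc, h⟩ := Pool.XI.xiR
  refine ⟨c, hc, ?_⟩
  intro n a b d w s M F o ha hd hw hM hF hs
  obtain ⟨k, rfl⟩ : ∃ k, d = k + 1 := ⟨d - 1, by omega⟩
  by_contra hcon
  rw [not_le] at hcon
  have h3 : 3 ≤ Nat.fib (2 * k + 4) := by
    have : Nat.fib 4 ≤ Nat.fib (2 * k + 4) := Nat.fib_mono (by omega)
    exact this
  have e2 : ((Nat.fib (2 * k + 4) - 2 : ℕ) : ℝ) + 1 = (Nat.fib (2 * (k + 1) + 2) : ℝ) - 1 := by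
    rw [show 2 * (k + 1) + 2 = 2 * k + 4 by ring]
    push_cast [Nat.cast_sub (show 2 ≤ Nat.fib (2 * k + 4) by omega)]
    ring
  have h4 := h k w b a n s M F o hw ha hF hM (hcon.trans_le (Nat.mul_le_mul_left _ ?_))
  · rw [e2] at h4
    exact absurd h4 (not_le.2 hs)
  · rw [← Set.ncard_coe_finset]
    refine Set.ncard_le_ncard_of_injOn (fun X v => (X v : ℕ)) ?_ ?_ ?_
    · intro X hX
      rw [Finset.mem_coe, mem_filter] at hX
      refine ⟨fun v => (X v).2, ?_⟩
      rw [show Pool.XI.ptR (fun v => (X v : ℕ)) = fun v => ((X v : ℕ) : ℝ) from rfl, hX.2]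
      unfold Pool.CDep.permP
      rw [Pool.CDep.map_permanent']
      congr 1
      ext i j
      rw [Matrix.map_apply, Matrix.of_apply, Matrix.of_apply, MvPolynomial.eval_X]
    · intro X _ Y _ hXY
      funext v
      exact Fin.ext (congrFun hXY v)
    · refine Set.Finite.subset (Finset.finite_toSet (Fintype.piFinset fun _ => range M))
        fun x hx => ?_
      rw [Finset.mem_coe, Fintype.mem_piFinset]
      intro v
      rw [mem_range]
      exact hx.1 v

end Pool.Agent.Results.MP_381749_lc.IntegerCircuits
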